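import Pool.Agent.Y925.PE.OneVar
import Pool.Agent.H335R2.MThm

/-!
# The numbers `k ^ P(π) * π ^ Q(π) * e ^ R(π)` for almost all integers `k`
-/

set_option autoImplicit false

namespace Pool.Agent.Results.MP_4c2ad3_nt.AlmostAllBases

open Polynomial

/-- The linear forms in `1` and logarithms of algebraic numbers, with algebraic coefficients. -/
noncomputable def LogForms : Submodule (algebraicClosure ℚ ℂ) ℂ :=
  Submodule.span (algebraicClosure ℚ ℂ) ({1} ∪ {z : ℂ | IsAlgebraic ℚ (Complex.exp z)})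

theorem exp_form {k : ℕ} (hk : k ≠ 0) (a b c : ℂ) :
    Complex.exp (a * ((Real.log (k : ℝ) : ℝ) : ℂ) + (b * ((Real.log Real.pi : ℝ) : ℂ) + c)) =
      (k : ℂ) ^ a * (Real.pi : ℂ) ^ b * Complex.exp c := by
  have hlogpi : Complex.log (Real.pi : ℂ) = ((Real.log Real.pi : ℝ) : ℂ) :=
    (Complex.ofReal_log Real.pi_pos.le).symm
  have hlogk : Complex.log ((k : ℕ) : ℂ) = ((Real.log (k : ℝ) : ℝ) : ℂ) := by
    rw [Complex.ofReal_log (by positivity)]
    push_cast
    rfl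
  rw [Complex.cpow_def_of_ne_zero (by exact_mod_cast hk),
    Complex.cpow_def_of_ne_zero (by exact_mod_cast Real.pi_ne_zero), hlogk, hlogpi,
    ← Complex.exp_add, ← Complex.exp_add]
  congr 1
  ring

theorem result (D x : ℕ) :
    ∃ E : Finset ℕ, E.card ≤ (1 + Nat.log 2 x) ^ (2 * D * (2 * D - 1)) ∧
      ∀ k : ℕ, 1 ≤ k → k ≤ x → k ∉ E →
        ∀ P Q R : Polynomial (algebraicClosure ℚ ℂ), P.degree < D → Q.degree < D → R.degree < D →
          1 ≤ P.natDegree →
          aeval (Real.pi : ℂ) P * Real.log k +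
            (aeval (Real.pi : ℂ) Q * Real.log Real.pi + aeval (Real.pi : ℂ) R) ∉ LogForms ∧
            Transcendental ℚ ((k : ℂ) ^ aeval (Real.pi : ℂ) P *
              (Real.pi : ℂ) ^ aeval (Real.pi : ℂ) Q * Complex.exp (aeval (Real.pi : ℂ) R)) := by
  obtain ⟨E, hE, h⟩ := Pool.Agent.Y925.PE.oneVar (t := (Real.pi : ℂ))
    Pool.Agent.H335R2.piC_transcendental (m := 1) ![1, ((Real.log Real.pi : ℝ) : ℂ)] rfl D x
    (fun k => ∃ P Q R : Polynomial (algebraicClosure ℚ ℂ), P.degree < D ∧ Q.degree < D ∧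
      R.degree < D ∧ 1 ≤ P.natDegree ∧
      aeval (Real.pi : ℂ) P * Real.log k +
        (aeval (Real.pi : ℂ) Q * Real.log Real.pi + aeval (Real.pi : ℂ) R) ∈ LogForms)
    (fun k ⟨P, Q, R, hP, hQ, hR, hP1, hA⟩ => ⟨P, ![R, Q], hP, by
      intro i
      fin_cases i
      · exact hR
      · exact hQ, hP1, by
      rw [Fin.sum_univ_two]
      have e1 : aeval (Real.pi : ℂ) P * ((Real.log (k : ℝ) : ℝ) : ℂ) +
          (![1, ((Real.log Real.pi : ℝ) : ℂ)] 0 * aeval (Real.pi : ℂ) (![R, Q] 0) +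
            ![1, ((Real.log Real.pi : ℝ) : ℂ)] 1 * aeval (Real.pi : ℂ) (![R, Q] 1)) =
          aeval (Real.pi : ℂ) P * Real.log k +
        (aeval (Real.pi : ℂ) Q * Real.log Real.pi + aeval (Real.pi : ℂ) R) := by
        simp only [Matrix.cons_val_zero, Matrix.cons_val_one]
        ring
      rw [e1]
      exact hA⟩)
  refine ⟨E, hE, fun k hk1 hkx hkE P Q R hP hQ hR hP1 => ?_⟩
  have h1 : aeval (Real.pi : ℂ) P * Real.log k +
      (aeval (Real.pi : ℂ) Q * Real.log Real.pi + aeval (Real.pi : ℂ) R) ∉ LogForms :=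
    fun hA => h k hk1 hkx hkE ⟨P, Q, R, hP, hQ, hR, hP1, hA⟩
  refine ⟨h1, fun hal => h1 (Submodule.subset_span (Or.inr ?_))⟩
  change IsAlgebraic ℚ (Complex.exp _)
  rw [exp_form (by omega)]
  exact hal

end Pool.Agent.Results.MP_4c2ad3_nt.AlmostAllBases
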