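import Mathlib
import Pool.Agent.Y918.RP.Final

/-!
# Random iterated powers of `π`

The numbers `π`, `π ^ π`, `π ^ (π ^ π)`, … arise from `π` by forming powers whose bases and exponents
have been constructed before.  We consider random perturbations of such constructions.  Let `t` be a
transcendental number, for instance `π`, and let

  `T_0 = t`,  `T_{j+1} = exp (R_j (T_0, …, T_j)) * T_{c_j} ^ P_j (T_{d_j})`  for `j < n`,

where `c_j, d_j ≤ j`, the functions `R_j` are fixed but arbitrary, for instance
`R_j = T_{d_j} log T_{c_j}`, and the `P_j` are random polynomials of degree less than `k` with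
coefficients in a finite set `A` of rational numbers.  For all `n`, `D` and `N` there are `k₀`, `C` and
`δ > 0` such that for all `k ≥ k₀` and every space `W` of dimension at most `N` over the field of
algebraic numbers, for instance the space spanned by the powers `t ^ i`, `i ≤ D`, the numbers
`T_1, …, T_n` satisfy no nonzero polynomial relation with coefficients in `W` of degree at most `D` in
each variable, for all but `C |A|^(n k - δ k)` of the `|A|^(n k)` tuples `(P_0, …, P_{n-1})`.

The proof.  By the multiplicative cube theorem a cube `ζ + ∑_{g ∈ S} w_g` of dimension `G` contains a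
number `z` such that `exp z` satisfies no relation of degree at most `D` over `W`, if all `exp w_g` are
transcendental.  By the six exponentials theorem, applied to `1, T` and to the numbers `λ Q(T)`, the
rational polynomials `Q` of degree less than `M` for which `exp (λ T^a Q(T))` is algebraic form a space
of dimension at most `(M + 3) / 2`, for all `λ ≠ 0` and transcendental `T`.  We use this for
`λ = log T_{c_j}` and `T = T_{d_j}`.  The bad polynomials contain no cube whose generators lie outside
these spaces, and an iterated Cauchy-Schwarz inequality shows that they are exponentially rare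
(`Pool.Agent.Y918.RP.stepX`).  The numbers already constructed are adjoined to `W`
(`Pool.Agent.Y918.RP.processF`).
-/

set_option autoImplicit false

namespace Pool.Agent.Results.MP_4c2ad3_nt.RandomPowersOfPi

/-- `T_0 = t` and `T_{j+1} = exp (R_j (T_0, …, T_j)) * T_{c_j} ^ P_j (T_{d_j})`, where `P_j` is the
polynomial with the coefficients `P j i` and `a ^ b = exp (b log a)` with the principal value of the
logarithm. -/
def IsTower {n k : ℕ} (c d : Fin n → ℕ) (R : (j : Fin n) → (Fin (j + 1) → ℂ) → ℂ)
    (t : ℂ) (P : Fin n → Fin k → ℚ) (T : ℕ → ℂ) : Prop :=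
  T 0 = t ∧ ∀ j : Fin n, T (j + 1) = Complex.exp (R j (fun i => T i)) *
    T (c j) ^ (∑ i : Fin k, (P j i : ℂ) * T (d j) ^ (i : ℕ))

/-- The numbers `x_i` satisfy a nonzero polynomial relation with coefficients in `W`, of degree at
most `D` in each of them. -/
def Related (W : Submodule (algebraicClosure ℚ ℂ) ℂ) (D : ℕ) {m : ℕ} (x : Fin m → ℂ) : Prop :=
  ∃ p : MvPolynomial (Fin m) ℂ, p ≠ 0 ∧ (∀ M, p.coeff M ∈ W) ∧ (∀ i, p.degreeOf i ≤ D) ∧
    MvPolynomial.eval x p = 0

open Classical in
/-- **Main result.** -/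
theorem result (n D N : ℕ) : ∃ (k₀ C : ℕ) (δ : ℝ), 0 < δ ∧ ∀ k ≥ k₀, ∀ A : Finset ℚ, A.Nonempty →
    ∀ W : Submodule (algebraicClosure ℚ ℂ) ℂ, Module.Finite (algebraicClosure ℚ ℂ) W →
    Module.finrank (algebraicClosure ℚ ℂ) W ≤ N →
    ∀ (c d : Fin n → ℕ), (∀ j, c j ≤ j) → (∀ j, d j ≤ j) →
    ∀ (R : (j : Fin n) → (Fin (j + 1) → ℂ) → ℂ) (t : ℂ), Transcendental ℚ t →
    (((Fintype.piFinset fun _ : Fin n => Fintype.piFinset fun _ : Fin k => A).filter
      (fun P : Fin n → Fin k → ℚ => ∃ T : ℕ → ℂ, IsTower c d R t P T ∧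
        Related W D (fun j : Fin n => T (j + 1)))).card : ℝ) ≤
      C * (A.card : ℝ) ^ ((n * k : ℝ) - δ * k) := by
  obtain ⟨k₀, C, δ, hδ, _, h⟩ := Pool.Agent.Y918.RP.towersF D n N
  refine ⟨k₀, C, δ, hδ, fun k hk A hA W hW hWN c d hc hd R t ht => ?_⟩
  refine le_trans ?_ (h k hk A hA W hW hWN t ht
    (fun j s p => if s (c j) = 0 then Complex.exp (R j (fun i => s i)) *
        s (c j) ^ (∑ i : Fin k, (p i : ℂ) * s (d j) ^ (i : ℕ)) else
      Complex.exp (R j (fun i => s i) +
        Complex.log (s (c j)) * ∑ i : Fin k, (p i : ℂ) * s (d j) ^ (i : ℕ))) ?_)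
  · apply Nat.cast_le.2
    apply Finset.card_le_card
    intro P hP
    rw [Finset.mem_filter] at hP ⊢
    obtain ⟨hPA, T, ⟨hT0, hT⟩, hR⟩ := hP
    refine ⟨hPA, T, hT0, fun j => ?_, hR⟩
    have h1 : ∀ i : ℕ, i ≤ (j : ℕ) → Pool.Agent.Y918.RP.upTo T j i = T i := fun i hi => if_pos hi
    have h2 : (fun i : Fin (j + 1) => Pool.Agent.Y918.RP.upTo T j i) = fun i : Fin (j + 1) => T i :=
      funext fun i => h1 i (by omega)
    rw [hT j, h2, h1 (c j) (hc j), h1 (d j) (hd j)]
    split_ifs with h0
    · rfl
    · rw [Complex.cpow_def_of_ne_zero h0, Complex.exp_add]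
  · intro j s hs
    have h0 : s (c j) ≠ 0 := by
      intro h0
      exact hs (c j) (hc j) (h0 ▸ isAlgebraic_zero)
    have h1 : Complex.log (s (c j)) ≠ 0 := by
      intro h1
      have h2 := Complex.exp_log h0
      rw [h1, Complex.exp_zero] at h2
      exact hs (c j) (hc j) (h2 ▸ isAlgebraic_one)
    have h2 := Pool.Agent.Y918.RP.fine_pow (k := k) (hs (d j) (hd j)) h1 (R j (fun i => s i))
    convert h2 using 2 with p
    rw [if_neg h0]

end Pool.Agent.Results.MP_4c2ad3_nt.RandomPowersOfPi
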