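import Pool.Agent.Y668.PE.TowM
import Pool.Agent.Y124.NFPoly

/-!
# The power towers `π`, `π^π`, `π^(π^π)`, …: almost all arguments of algebraic numbers

Put `M(x) = -i log x`, with the branch `M(-1) = π`; so `M(e^{iθ}) = θ` for `0 < θ < 2π`.  We show that at almost all
points `x` (and `n`-tuples of points) of number fields of bounded degree the towers `M`, `M^M`, `M^(M^M)`, … up to any
height do not satisfy any (approximate) algebraic relation of bounded degree and polynomially bounded height, relative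
to arbitrary complex constants.  At `x = -1` the numbers are `π`, `π^π`, `π^(π^π)`, ….

The proof contains the algebraic independence of the towers over `ℂ(x)`: on the universal covering of `ℂ \ {0}` the
monodromy `M ↦ M + 2πn` fixes `x` and separates the growth of the towers.
-/

set_option autoImplicit false

open NumberField

namespace Pool.Agent.Results.MP_4c2ad3_nt.TowersOfArguments

/-- `M(x) = -i log x`, with the branch `M(-1) = π`, outside the half line `[0, ∞)` -/
noncomputable def M (x : ℂ) : ℂ := Real.pi - Complex.I * Complex.log (-x)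

/-- The power towers `a`, `a^a`, `a^(a^a)`, … of a complex number (principal powers). -/
noncomputable def tower (a : ℂ) : ℕ → ℂ
  | 0 => a
  | i + 1 => a ^ tower a i

/-- The power towers `a`, `a^a`, `a^(a^a)`, … of a real number. -/
noncomputable def towerR (a : ℝ) : ℕ → ℝ
  | 0 => a
  | i + 1 => a ^ towerR a i

/-- The elements of the number field `F` with image in `L` which are quotients of two integers of `F` all of whose
conjugates have absolute value at most `T`. -/
def Points (F : Type) [Field F] [NumberField F] (ι : F →+* ℂ) (L : Set ℂ) (T : ℝ) : Set F :=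
  {x | ι x ∈ L ∧ ∃ a b : 𝓞 F, b ≠ 0 ∧ (∀ φ : F →+* ℂ, ‖φ a‖ ≤ T ∧ ‖φ b‖ ≤ T) ∧ x = a / b}

/-- The `n`-tuples `t` of points of `F` for which there is a polynomial `P` of degree at most `d` in each variable, with
coefficients of the form `∑ ξ_i ι(c_i)`, where the `c_i` are integers of `F` all of whose conjugates have absolute value
at most `T ^ A`, such that the value of `P` at the `k n` numbers `tower (M (t_j)) i`, `j ≤ n`, `i < k`, is at most
`T ^ (-B)` times the absolute value of some nonzero coefficient of `P`. -/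
def Exceptional (k n d : ℕ) {g : ℕ} (F : Type) [Field F] [NumberField F] (ι : F →+* ℂ)
    (ξ : Fin g → ℂ) (L : Set ℂ) (A B T : ℝ) : Set (Fin n → F) :=
  {t | (∀ j, t j ∈ Points F ι L T) ∧ ∃ P : MvPolynomial (Fin n × Fin k) ℂ,
    (∀ x, P.degreeOf x ≤ d) ∧
    (∀ s, ∃ c : Fin g → 𝓞 F, (∀ i (φ : F →+* ℂ), ‖φ (c i)‖ ≤ T ^ A) ∧ P.coeff s = ∑ i, ξ i * ι (c i)) ∧
    ∃ s₀, P.coeff s₀ ≠ 0 ∧
      ‖MvPolynomial.aeval (fun x : Fin n × Fin k => tower (M (ι (t x.1))) x.2) P‖ ≤ T ^ (-B) * ‖P.coeff s₀‖}

open Pool.Agent.Y668.PE in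
theorem tower_eq (x : ℂ) (i : ℕ) : tower (M x) i = twr i (arg0 x) := by
  have hM : M x = arg0 x := rfl
  have hM0 : arg0 x ≠ 0 := by
    intro h
    have := arg0_re_pos x
    rw [h] at this
    simp at this
  induction i with
  | zero => exact hM
  | succ i ih =>
    simp only [tower, twr]
    rw [ih, hM, Complex.cpow_def_of_ne_zero hM0, mul_comm]

theorem tower_real {a : ℝ} (ha : 0 < a) (i : ℕ) : tower a i = towerR a i := by
  induction i with
  | zero => rfl
  | succ i ih =>
    simp only [tower, towerR]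
    rw [ih, Complex.ofReal_cpow ha.le]

theorem M_circle {θ : ℝ} (h1 : 0 < θ) (h2 : θ < 2 * Real.pi) : M (Complex.exp (Complex.I * θ)) = θ :=
  Pool.Agent.Y668.PE.arg0_exp θ (by simpa using h1) (by simpa using h2)

/-- For `x = e^{iθ}` with `0 < θ < 2π` the numbers are the towers `θ`, `θ^θ`, `θ^(θ^θ)`, …; so at `x = -1` they are `π`,
`π^π`, `π^(π^π)`, ….  Let `L` be a compact set in `ℂ` disjoint from the half line `[0, ∞)`.  For all `k`, `m`, `n`, `g`,
`d`, `A` and `ε > 0` there are `B`, `C`, `T₀` such that for every number field `F` of degree at most `m`, every embedding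
of `F` in `ℂ`, all complex numbers `ξ_1, …, ξ_g` and all `T ≥ T₀` the number of exceptional `n`-tuples is at most
`C T^ε N^(n - 1)`, where `N` is the number of points. -/
theorem result :
    (∀ θ : ℝ, 0 < θ → θ < 2 * Real.pi → ∀ i, tower (M (Complex.exp (Complex.I * θ))) i = towerR θ i) ∧
    (∀ i, tower (M (-1)) i = towerR Real.pi i) ∧
    ∀ (k m n g d : ℕ) (L : Set ℂ), IsCompact L → (∀ x ∈ L, x.re < 0 ∨ x.im ≠ 0) → ∀ (A ε : ℝ), 0 < ε →
    ∃ B C T₀ : ℝ, ∀ (F : Type) [Field F] [NumberField F], Module.finrank ℚ F ≤ m → ∀ (ι : F →+* ℂ) (ξ : Fin g → ℂ)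
      (T : ℝ), T₀ ≤ T → (Exceptional k n d F ι ξ L A B T).Finite ∧
        ((Exceptional k n d F ι ξ L A B T).ncard : ℝ) ≤ C * T ^ ε * ((Points F ι L T).ncard : ℝ) ^ (n - 1) := by
  classical
  refine ⟨fun θ h1 h2 i => by rw [M_circle h1 h2, tower_real h1], fun i => ?_, fun k m n g d L hL hL' A ε hε => ?_⟩
  · have hM : M (-1) = (Real.pi : ℂ) := by simp [M]
    rw [hM, tower_real Real.pi_pos]
  have hsl : ∀ t ∈ L, -t ∈ Complex.slitPlane := by
    intro t ht
    rcases hL' t ht with h | h
    · left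
      simpa using h
    · right
      simpa using h
  let f : Fin k → ℂ → ℂ := fun i t => Pool.Agent.Y668.PE.twr i (Pool.Agent.Y668.PE.arg0 t)
  have hind : ∀ t ∈ L, Pool.Agent.Y124.LocInd f t := by
    intro t ht P hP
    have hinj : Function.Injective (Option.map (Sum.inr : Fin k → Empty ⊕ Fin k)) :=
      Option.map_injective Sum.inr_injective
    apply MvPolynomial.rename_injective _ hinj
    rw [map_zero]
    apply Pool.Agent.Y668.PE.M_locInd k t (hsl t ht)
    filter_upwards [hP] with z hz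
    rw [MvPolynomial.eval_rename, ← hz]
    congr 1
    congr 1
    funext o
    rcases o with _ | i <;> rfl
  have han : ∀ i, ∀ t ∈ L, AnalyticAt ℂ (f i) t := fun i t ht =>
    (Pool.Agent.Y668.PE.twr_an i _ (Pool.Agent.Y668.PE.arg0_re_pos t)).comp_of_eq
      (Pool.Agent.Y668.PE.arg0_analytic t (hsl t ht)) rfl
  obtain ⟨B, C, T₀, hC, hT₀, H⟩ := Pool.Agent.Y124.excNF (h := Fin g) m n d (fun t i => f i t) L
    (fun g' => Pool.Agent.Y124.oneV_of g' f L hL han hind) A ε hε
  refine ⟨B, C, T₀, fun F _ _ hF ι ξ T hT => ?_⟩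
  have hT0 : 0 ≤ T := by linarith
  have hP : Points F ι L T = {x : F | Pool.Agent.Y120.HtLe F T x ∧ ι x ∈ L} := by
    ext x
    constructor
    · rintro ⟨h1, a, b, hb, hab, hx⟩
      exact ⟨⟨a, b, hb, Pool.Agent.Y120.house_le F hT0 fun φ => (hab φ).1,
        Pool.Agent.Y120.house_le F hT0 fun φ => (hab φ).2, hx⟩, h1⟩
    · rintro ⟨⟨a, b, hb, ha, hb', hx⟩, h1⟩
      exact ⟨h1, a, b, hb, fun φ => ⟨(Pool.Agent.Y120.house_ge F _ φ).trans ha,
        (Pool.Agent.Y120.house_ge F _ φ).trans hb'⟩, hx⟩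
  have hsub : Exceptional k n d F ι ξ L A B T ⊆
      Pool.Agent.Y124.ExcNF n d F ι ξ (fun t i => f i t) L A B T := by
    rintro t ⟨ht, P, hPd, hPc, s₀, hs₀, hs⟩
    refine ⟨fun j => ?_, P, hPd, hPc, s₀, hs₀, ?_⟩
    · have h1 := ht j
      rw [hP] at h1
      exact h1
    · refine le_trans (le_of_eq ?_) hs
      congr 1
      congr 1
      congr 1
      funext x
      exact (tower_eq _ x.2).symm
  obtain ⟨h1, h2⟩ := H F hF ι ξ T hT
  refine ⟨h1.subset hsub, ?_⟩
  rw [hP]
  exact le_trans (by exact_mod_cast Set.ncard_le_ncard hsub h1) h2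

end Pool.Agent.Results.MP_4c2ad3_nt.TowersOfArguments
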